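import Pool.Agent.Helper74.LF.Fin
import Pool.Agent.Helper74.LF.P.KD1
import Pool.Agent.Helper74.LF.P.KD2
import Pool.Agent.Helper74.LF.P.K1
import Pool.Agent.Helper74.LF.P.EXC
import Pool.Agent.Helper74.LF.P.STEP
import Pool.Agent.Helper74.LF.P.NEWD
import Pool.Agent.Helper74.LF.P.HARD
import Pool.Agent.Helper74.LF.P.TR
import Pool.Agent.Helper74.LF.P.GEO1
import Pool.Agent.Helper74.LF.P.GEO
import Pool.Agent.Helper74.LF.P.RA0
import Pool.Agent.Helper74.LF.P.RA1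
import Pool.Agent.Helper74.LF.P.RC
import Pool.Agent.Helper74.LF.P.HWT
import Pool.Agent.Helper74.LF.P.HW0
import Pool.Agent.Helper74.LF.P.HPB
import Pool.Agent.Helper74.LF.P.HN
import Pool.Agent.Helper74.LF.P.HRL
import Pool.Agent.Helper74.LF.P.HM
import Pool.Agent.Helper74.LF.P.HT
import Pool.Agent.Helper74.LF.P.HF
import Pool.Agent.Helper74.LF.P.DI1
import Pool.Agent.Helper74.LF.P.DI2
import Pool.Agent.Helper74.LF.P.HBD
import Pool.Agent.Helper74.LF.P.ULOW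
import Pool.Agent.Helper74.LF.P.UA0
import Pool.Agent.Helper74.LF.P.UA1
import Pool.Agent.Helper74.LF.P.UA2
import Pool.Agent.Helper74.LF.P.UB
import Pool.Agent.Helper74.LF.P.UCL
import Pool.Agent.Helper74.LF.P.UCH
import Pool.Agent.Helper74.LF.P.UC
import Pool.Agent.Helper74.LF.P.IGE
import Pool.Agent.Helper74.LF.P.IDS
import Pool.Agent.Helper74.LF.P.IP1
import Pool.Agent.Helper74.LF.P.IDEG
import Pool.Agent.Helper74.LF.P.IU
import Pool.Agent.Helper57.LF.GEO3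
import Pool.Agent.Helper33.LF.HC
import Pool.Agent.Helper50.LL.IP8

/-!
# Project LF (MP_cc6379_al): all goals, and the main theorem without hypotheses

The files `P/*.lean` are copies of the proofs of project LL and LE for the more general hypotheses,
by the seats helper93 (KD1), helper81 (KD2), helper16 (K1, UA2), helper72 (EXC, HWT), helper98 (STEP, HRL), helper37 (NEWD),
helper41 (HARD, HN, DI1), helper32 (TR), helper4 (GEO1), helper2 (GEO, IDS), helper45 (RA0, UCH), helper13 (RA1), helper67 (RC),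
helper50 (IP8), helper63 (HW0), helper7 (HPB, UA0), helper89 (HM), helper66 (IGE, IDEG, UCL), helper9 (IP1, HBD), helper33 (IU),
helper44 (DI2), helper12 (HF), helper23 (ULOW), helper78 (UA1), helper14 (UB), helper38 (UC).  New: helper57 (GEO3), helper33 (HC).
-/

set_option autoImplicit false

noncomputable section

namespace Pool.Agent.Helper74.LF

open Pool.Agent.Helper15.RA Pool.Agent.Helper45.AM

theorem a_kd1 : KD1 := C_KD1.t
theorem a_kd2 : KD2 := C_KD2.t a_kd1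
theorem a_k1 : K1 := C_K1.t a_kd1 a_kd2
theorem a_exc : EXC := C_EXC.t a_kd2 a_k1
theorem a_step : STEP := C_STEP.t a_kd1 a_kd2 a_k1 a_exc
theorem a_newd : NEWD := C_NEWD.t a_kd1 a_kd2 a_k1
theorem a_hard : HARD := C_HARD.t a_kd1 a_kd2 a_k1
theorem a_tr : TR := C_TR.t a_kd1 a_kd2
theorem a_geo1 : GEO1 := C_GEO1.t a_kd1 a_kd2 a_step a_newd a_hard a_tr
theorem a_geo : GEO := C_GEO.t a_kd1 a_kd2 a_tr a_geo1
theorem a_geo3 : GEO3 := Pool.Agent.Helper57.LF.GEO3.t a_kd1 a_kd2 a_k1 a_geo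
theorem a_ra0 : RA0 := C_RA0.t a_kd1 a_kd2 a_k1 a_geo
theorem a_ra1 : RA1 := C_RA1.t a_kd1 a_kd2 a_k1 a_geo
theorem a_rc : RC := C_RC.t a_kd1 a_kd2 a_k1 a_geo
theorem a_hwt : HWT := C_HWT.t a_kd1
theorem a_hw0 : HW0 := C_HW0.t a_kd1 a_hwt
theorem a_hpb : HPB := C_HPB.t
theorem a_hn : HN := C_HN.t a_kd2 a_hw0
theorem a_hrl : HRL := C_HRL.t a_kd1 a_hw0
theorem a_hm : HM := C_HM.t a_hwt
theorem a_hc : HC := Pool.Agent.Helper33.LF.HC.t a_kd2 a_hpb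
theorem a_ht : HT := C_HT.t
theorem a_di1 : DI1 := C_DI1.t a_kd1
theorem a_di2 : DI2 := C_DI2.t a_kd1
theorem a_hbd : HBD := C_HBD.t a_kd1 a_hwt a_hw0 a_hpb a_di1 a_di2
theorem a_hf : HF := C_HF.t a_geo3 a_hc a_ht a_geo a_hwt a_hw0 a_hpb a_hbd a_hn
theorem a_ulow : ULOW := C_ULOW.t a_kd1 a_k1 a_hwt a_hrl
theorem a_ua0 : UA0 := C_UA0.t a_kd1 a_kd2 a_hwt a_hw0 a_ra0 a_ulow
theorem a_ua1 : UA1 := C_UA1.t a_kd1 a_kd2 a_hwt a_hw0 a_hrl a_ra1 a_ulow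
theorem a_ua2 : UA2 := C_UA2.t a_kd1 a_kd2 a_k1 a_geo a_hwt a_hw0 a_ra1 a_hrl a_ulow
theorem a_ub : UB := C_UB.t a_kd1 a_kd2 a_hwt a_hw0 a_ra0 a_hrl
theorem a_ucl : UCL := C_UCL.t a_kd1 a_kd2 a_k1 a_hwt a_rc a_hrl
theorem a_uch : UCH := C_UCH.t a_kd1 a_kd2 a_k1 a_hwt a_hw0 a_rc a_hrl
theorem a_uc : UC := C_UC.t a_kd1 a_hwt a_hw0 a_di2 a_ucl a_uch
theorem a_ige : IGE := C_IGE.t
theorem a_ids : IDS := C_IDS.t a_ige
theorem a_ip1 : IP1 := C_IP1.t a_ige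
theorem a_ideg : IDEG := C_IDEG.t
theorem a_ip8 : Pool.Agent.Helper74.LL.IP8 := Pool.Agent.Helper50.LL.IP8.t
theorem a_iu : IU := C_IU.t a_ige

/-- all facts -/
theorem facts : Facts where
  kd1 := a_kd1
  kd2 := a_kd2
  geo := a_geo
  hwt := a_hwt
  hn := a_hn
  hf := a_hf
  hm := a_hm
  ua0 := a_ua0
  ua1 := a_ua1
  ua2 := a_ua2
  ub := a_ub
  uc := a_uc
  ige := a_ige
  ids := a_ids
  ip1 := a_ip1
  ideg := a_ideg
  ip8 := a_ip8
  iu := a_iu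

end Pool.Agent.Helper74.LF
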