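import Pool.Agent.Helper74.LF.Defs

/-!
# Project LF: elementary lemmas on `LP` and on the span `Vm M` of the `c_z`, `Ge (M+1) z`.
-/

set_option autoImplicit false

open LaurentPolynomial Pool.Agent.Helper15.RA Pool.Agent.Helper45.AM

noncomputable section

namespace Pool.Agent.Helper74.LF

namespace TF

variable {S W H : Type} [Group W] [Ring H] [Algebra ℤ[T;T⁻¹] H] (X : TF S W H)

/-- The span of the `c_z`, `Ge (M+1) z` (as the set of elements without other `c`-coordinates). -/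
def Vm (M : ℕ) : Submodule ℤ[T;T⁻¹] H where
  carrier := {Z | ∀ z, ¬ X.Ge (M + 1) z → X.b.repr Z z = 0}
  add_mem' := by
    intro Y Z hY hZ z hz
    rw [map_add, Finsupp.add_apply, hY z hz, hZ z hz, add_zero]
  zero_mem' := by
    intro z _
    rw [map_zero, Finsupp.zero_apply]
  smul_mem' := by
    intro p Z hZ z hz
    rw [map_smul, Finsupp.smul_apply, hZ z hz, smul_zero]

variable {X}

theorem mem_Vm {M : ℕ} {Z : H} : Z ∈ X.Vm M ↔ ∀ z, ¬ X.Ge (M + 1) z → X.b.repr Z z = 0 := Iff.rfl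

variable {M : ℕ} {k k' : ℤ} {Y Z : H} {p : ℤ[T;T⁻¹]}

theorem LP.add (hY : X.LP M k Y) (hZ : X.LP M k Z) : X.LP M k (Y + Z) := by
  intro z hz
  rw [map_add, Finsupp.add_apply]
  refine ⟨(hY z hz).1.add (hZ z hz).1, fun h => ?_⟩
  rw [AddMonoidAlgebra.coeff_add, Finsupp.add_apply] at h
  by_cases h1 : (X.b.repr Y z).coeff k = 0
  · exact (hZ z hz).2 fun h2 => h (by rw [h1, h2, add_zero])
  · exact (hY z hz).2 h1

theorem LP.neg (hY : X.LP M k Y) : X.LP M k (-Y) := by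
  intro z hz
  rw [map_neg, Finsupp.neg_apply]
  refine ⟨(hY z hz).1.neg, fun h => (hY z hz).2 fun h1 => h ?_⟩
  rw [AddMonoidAlgebra.coeff_neg, Finsupp.neg_apply, h1, neg_zero]

theorem LP.sub (hY : X.LP M k Y) (hZ : X.LP M k Z) : X.LP M k (Y - Z) := by
  rw [sub_eq_add_neg]
  exact hY.add hZ.neg

theorem LP.zero (M : ℕ) (k : ℤ) : X.LP M k 0 := by
  intro z _
  rw [map_zero, Finsupp.zero_apply]
  exact ⟨DegLE.zero k, fun h => absurd rfl h⟩

theorem LP.smul (hp : DegLE k' p) (hY : X.LP M k Y) : X.LP M (k' + k) (p • Y) := by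
  intro z hz
  rw [map_smul, Finsupp.smul_apply, smul_eq_mul]
  refine ⟨hp.mul (hY z hz).1, fun h => (hY z hz).2 fun h1 => h ?_⟩
  rw [coeff_mul_top hp (hY z hz).1, h1, mul_zero]

theorem LP.mono (hY : X.LP M k Y) (h : k ≤ k') : X.LP M k' Y := by
  intro z hz
  refine ⟨(hY z hz).1.mono h, fun h1 => ?_⟩
  rcases eq_or_lt_of_le h with h2 | h2
  · exact (hY z hz).2 (by rwa [h2])
  · exact absurd ((hY z hz).1 k' h2) h1

theorem LP.smul_le (hp : DegLE k' p) (hY : X.LP M k Y) {m : ℤ} (h : k' + k ≤ m) : X.LP M m (p • Y) :=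
  (LP.smul hp hY).mono h

/-- multiplication by `v^n` -/
theorem LP.smul_T {n m : ℤ} (hY : X.LP M k Y) (h : n + k ≤ m) : X.LP M m ((T n : ℤ[T;T⁻¹]) • Y) :=
  LP.smul_le (DegLE.T_le le_rfl) hY h

theorem LP.smul_xi {n : ℕ} {m : ℤ} (hY : X.LP M k Y) (h : n + k ≤ m) : X.LP M m (xi n • Y) :=
  LP.smul_le (DegLE.xi n) hY h

theorem LP.sum {ι : Type*} {s : Finset ι} {f : ι → H} (h : ∀ i ∈ s, X.LP M k (f i)) :
    X.LP M k (∑ i ∈ s, f i) := by
  classical
  induction s using Finset.induction_on with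
  | empty => exact LP.zero M k
  | insert i s hi ih =>
    rw [Finset.sum_insert hi]
    exact (h i (Finset.mem_insert_self i s)).add (ih fun j hj => h j (Finset.mem_insert_of_mem hj))

theorem LP.of_Vm (h : Y ∈ X.Vm M) : X.LP M k Y := by
  intro z hz
  rw [mem_Vm.1 h z hz]
  exact ⟨DegLE.zero k, fun h => absurd rfl h⟩

theorem LP.congr (h : Y - Z ∈ X.Vm M) (hZ : X.LP M k Z) : X.LP M k Y := by
  have := (LP.of_Vm (k := k) h).add hZ
  rwa [sub_add_cancel] at this

/-- `T_w` -/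
theorem LP.t (M : ℕ) (w : W) : X.LP M 1 (X.D.t w) := by
  intro z hz
  obtain ⟨-, h1, h2, -⟩ := Pool.Agent.Helper15.AM.k_ab S W H X.toBase
  have h3 : DegLE 0 (X.b.repr (X.D.t w) z) := by
    by_cases hzw : z = w
    · subst hzw
      rw [h1]
      exact DegLE.one le_rfl
    · exact (h2 w z hzw).mono (by norm_num)
  refine ⟨h3.mono (by norm_num), fun h => absurd (h3 1 (by norm_num)) h⟩

/-- `T_w` with `Ge M w` -/
theorem LP.t_of_ge {w : W} (hw : X.Ge M w) : X.LP M 0 (X.D.t w) := by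
  intro z hz
  obtain ⟨-, h1, h2, -⟩ := Pool.Agent.Helper15.AM.k_ab S W H X.toBase
  by_cases hzw : z = w
  · subst hzw
    rw [h1]
    exact ⟨DegLE.one le_rfl, fun _ => hw⟩
  · refine ⟨(h2 w z hzw).mono (by norm_num), fun h => absurd (h2 w z hzw 0 (by norm_num)) h⟩

/-- multiples of `T_w` of negative degree -/
theorem LP.t_smul {w : W} (hp : DegLE k' p) (h : k' + 1 ≤ k) : X.LP M k (p • X.D.t w) :=
  LP.smul_le hp (LP.t M w) h

variable (X)

theorem c_mem_Vm {w : W} (h : X.Ge (M + 1) w) : X.D.c w ∈ X.Vm M := by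
  classical
  rw [mem_Vm]
  intro z hz
  have hne : w ≠ z := fun e => hz (e ▸ h)
  rw [← X.hb w, Module.Basis.repr_self, Finsupp.single_apply, if_neg hne]

theorem repr_mul_c (x y : W) : X.b.repr (X.D.c x * X.D.c y) = X.h x y :=
  (Pool.Agent.Helper15.AM.k_ab S W H X.toBase).1 x y

theorem eq_sum (Z : H) : Z = (X.b.repr Z).sum fun w p => p • X.D.c w := by
  conv_lhs => rw [← X.b.linearCombination_repr Z]
  rw [Finsupp.linearCombination_apply]
  refine Finsupp.sum_congr fun w _ => ?_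
  rw [X.hb]

theorem Vm_eq_span (M : ℕ) :
    X.Vm M = Submodule.span ℤ[T;T⁻¹] {Z | ∃ w, X.Ge (M + 1) w ∧ Z = X.D.c w} := by
  apply le_antisymm
  · intro Z hZ
    rw [X.eq_sum Z]
    refine Submodule.sum_mem _ fun w hw => Submodule.smul_mem _ _ (Submodule.subset_span ⟨w, ?_, rfl⟩)
    by_contra hc
    exact Finsupp.mem_support_iff.1 hw (mem_Vm.1 hZ w hc)
  · rw [Submodule.span_le]
    rintro Z ⟨w, hw, rfl⟩
    exact X.c_mem_Vm hw

/-- `Vm M` is a left ideal -/
theorem Vm_mul_left (hI : X.Id M) (Y : H) {Z : H} (hZ : Z ∈ X.Vm M) : Y * Z ∈ X.Vm M := by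
  rw [Vm_eq_span] at hZ
  induction hZ using Submodule.span_induction with
  | mem Z hZ =>
    obtain ⟨w, hw, rfl⟩ := hZ
    rw [X.eq_sum Y, Finsupp.sum, Finset.sum_mul]
    refine Submodule.sum_mem _ fun u _ => ?_
    rw [smul_mul_assoc]
    refine Submodule.smul_mem _ _ (mem_Vm.2 fun z hz => ?_)
    rw [X.repr_mul_c]
    by_contra hc
    exact hz (hI u w z (Or.inr hw) hc)
  | zero => simp
  | add Z₁ Z₂ _ _ h1 h2 =>
    rw [mul_add]
    exact add_mem h1 h2
  | smul p Z _ h =>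
    rw [mul_smul_comm]
    exact Submodule.smul_mem _ _ h

/-- `Vm M` is a right ideal -/
theorem Vm_mul_right (hI : X.Id M) (Y : H) {Z : H} (hZ : Z ∈ X.Vm M) : Z * Y ∈ X.Vm M := by
  rw [Vm_eq_span] at hZ
  induction hZ using Submodule.span_induction with
  | mem Z hZ =>
    obtain ⟨w, hw, rfl⟩ := hZ
    rw [X.eq_sum Y, Finsupp.sum, Finset.mul_sum]
    refine Submodule.sum_mem _ fun u _ => ?_
    rw [mul_smul_comm]
    refine Submodule.smul_mem _ _ (mem_Vm.2 fun z hz => ?_)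
    rw [X.repr_mul_c]
    by_contra hc
    exact hz (hI w u z (Or.inl hw) hc)
  | zero => simp
  | add Z₁ Z₂ _ _ h1 h2 =>
    rw [add_mul]
    exact add_mem h1 h2
  | smul p Z _ h =>
    rw [smul_mul_assoc]
    exact Submodule.smul_mem _ _ h

end TF

end Pool.Agent.Helper74.LF
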