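import Pool.Agent.Helper15.AM.All

/-!
# Project LF (MP_cc6379_al): Coxeter groups with large labels, commuting transitive, all weight functions. Definitions.

`cs.IsRightDescent w i` (`ℓ(w s_i) < ℓ(w)`) and `cs.IsLeftDescent w i` (`ℓ(s_i w) < ℓ(w)`) are Mathlib's. `par cs P = W_P`,
`XR cs P x` (`x ∈ X_P`), `XL cs P y` (`y ∈ Y_P`), `Base`, `PG` are in `Pool.Agent.Helper45.AM.Defs`; `al cs i j k = s_i s_j s_i ⋯` (`k`
factors) in `Pool.Agent.Helper15.RA.GoalsR`. All facts `G_*`, `A_*`, `H_*` of the projects RA and AM are proved: they are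
`Pool.Agent.Helper15.AM.k_gpa`, `k_gpb`, `k_gpc`, `k_gd`, `k_gps`, `k_vb`, `k_ab`, `k_as`, `k_am`, `k_ak`, `k_al`, `k_ap`, `k_aj`, `k_ac`, `k_a1`,
`k_ar`, ... and `Pool.Agent.Helper15.RA.g_h1`, `g_h2`, `g_h3`, `g_hv` (import `Pool.Agent.Helper15.AM.All`).
-/

set_option autoImplicit false

open LaurentPolynomial Pool.Agent.Helper15.RA Pool.Agent.Helper45.AM

noncomputable section

namespace Pool.Agent.Helper74.LF

/-! ## Coxeter groups -/

/-- Large labels: `m_ij` finite, commuting is transitive, all `m_ij ≠ 2` (`i ≠ j`) are at least `6`. -/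
structure Lg {S : Type} (M : CoxeterMatrix S) : Prop where
  fin : ∀ i j, M i j ≠ 0
  tr : ∀ i j k, M i j = 2 → M i k = 2 → j ≠ k → M j k = 2
  big : ∀ i j, i ≠ j → M i j ≠ 2 → 6 ≤ M i j

section cox

variable {S W : Type} [Group W] {M : CoxeterMatrix S} (cs : CoxeterSystem M W)

/-- the longest element of `W_{i,j}` (`i ≠ j`) -/
def w0 (i j : S) : W := al cs i j (M i j)

/-- `g ∈ W_{i,j}` and `g` is in no proper parabolic subgroup of `W_{i,j}`. -/
def Full (i j : S) (g : W) : Prop :=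
  g ∈ par cs {i, j} ∧ g ∉ par cs ({i} : Set S) ∧ g ∉ par cs ({j} : Set S)

/-- type A -/
def TA (x g y : W) : Prop := ∃ a b c : S, a ≠ b ∧ a ≠ c ∧ b ≠ c ∧ g = cs.simple a * cs.simple b ∧
  cs.IsRightDescent (x * cs.simple a) c ∧ cs.IsLeftDescent (cs.simple b * y) c

/-- type B -/
def TB (x g y : W) : Prop := ∃ a b c : S, a ≠ c ∧ b ≠ c ∧ M a b = 2 ∧ g = cs.simple a * cs.simple c ∧
  cs.IsRightDescent x b ∧ cs.IsRightDescent (x * cs.simple b * cs.simple a) c ∧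
  ¬ cs.IsLeftDescent (cs.simple c * y) b ∧ cs.IsLeftDescent (cs.simple b * cs.simple c * y) c

/-- type B' (mirror image of type B) -/
def TBm (x g y : W) : Prop := ∃ a b c : S, a ≠ c ∧ b ≠ c ∧ M a b = 2 ∧ g = cs.simple c * cs.simple b ∧
  cs.IsLeftDescent y a ∧ cs.IsLeftDescent (cs.simple b * cs.simple a * y) c ∧
  ¬ cs.IsRightDescent (x * cs.simple c) a ∧ cs.IsRightDescent (x * cs.simple c * cs.simple a) c

/-- type C -/
def TC (x g y : W) : Prop := ∃ a b c : S, a ≠ b ∧ a ≠ c ∧ M a b ≠ 2 ∧ M b c = 2 ∧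
  g = cs.simple a * cs.simple b * cs.simple a ∧
  cs.IsRightDescent (x * cs.simple a) c ∧ cs.IsLeftDescent (cs.simple a * y) c

/-- No generator outside of `I` that commutes with all `i ∈ I` is a right descent of `x` or a left descent of `y`. -/
def Tight (I : Set S) (x y : W) : Prop := ∀ v, v ∉ I → (∀ i ∈ I, M v i = 2) →
  ¬ cs.IsRightDescent x v ∧ ¬ cs.IsLeftDescent y v

/-- `I` consists of commuting generators -/
def Cm (M : CoxeterMatrix S) (I : Set S) : Prop := ∀ i ∈ I, ∀ j ∈ I, i ≠ j → M i j = 2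

end cox

/-! ## The Hecke algebra -/

/-- `I` consists of commuting generators, or of two elements. -/
def Sm {S : Type} (M : CoxeterMatrix S) (I : Set S) : Prop :=
  Cm M I ∨ ∃ i j, I = {i, j}

theorem sm_empty {S : Type} (M : CoxeterMatrix S) : Sm M ∅ := Or.inl fun _ hi => absurd hi (Set.notMem_empty _)

theorem sm_pair {S : Type} (M : CoxeterMatrix S) (i j : S) : Sm M {i, j} := Or.inr ⟨i, j, rfl⟩

theorem Cm.sm {S : Type} {M : CoxeterMatrix S} {I : Set S} (h : Cm M I) : Sm M I := Or.inl h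

/-- The data of the project: a Coxeter group with large labels, any weight function, and its Hecke algebra; `α` is the function `a` of the
finite parabolic subgroups. -/
structure TF (S W H : Type) [Group W] [Ring H] [Algebra ℤ[T;T⁻¹] H] extends Base S W H where
  α : W → ℕ
  pg : ∀ I : Set S, Sm M I → PG D h I α
  fin : ∀ i j, M i j ≠ 0
  tr : ∀ i j k, M i j = 2 → M i k = 2 → j ≠ k → M j k = 2
  big : ∀ i j, i ≠ j → M i j ≠ 2 → 6 ≤ M i j

namespace TF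

variable {S W H : Type} [Group W] [Ring H] [Algebra ℤ[T;T⁻¹] H] (X : TF S W H)

/-- The admissible triples. -/
def Adm (x g y : W) : Prop := ∃ I : Set S, Sm X.M I ∧ XR X.cs I x ∧ g ∈ par X.cs I ∧ XL X.cs I y

/-- `T_x c_g T_y` -/
def B (x g y : W) : H := X.D.t x * X.D.c g * X.D.t y

/-- `a'(w) ≥ m`: there is a reduced product `w = u g u'` with `g ∈ W_I`, `|I| ≤ 2`, `α(g) ≥ m`. -/
def Ge (m : ℕ) (w : W) : Prop := ∃ (u g u' : W) (I : Set S), Sm X.M I ∧ g ∈ par X.cs I ∧ w = u * g * u' ∧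
  X.cs.length w = X.cs.length u + X.cs.length g + X.cs.length u' ∧ m ≤ X.α g

/-- Modulo `{c_z : Ge (M+1) z}`, all `c`-coordinates of `Z` have degree at most `k`, and the coefficient of `v^k` is nonzero only at `z`
with `Ge M z`. -/
def LP (M : ℕ) (k : ℤ) (Z : H) : Prop := ∀ z, ¬ X.Ge (M + 1) z →
  DegLE k (X.b.repr Z z) ∧ ((X.b.repr Z z).coeff k ≠ 0 → X.Ge M z)

/-- `{c_z : Ge (M+1) z}` spans a two-sided ideal. -/
def Id (M : ℕ) : Prop := ∀ x y z, X.Ge (M + 1) x ∨ X.Ge (M + 1) y → X.h x y z ≠ 0 → X.Ge (M + 1) z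

/-- the main estimate for triples with `ℓ(x) + ℓ(y) < n` -/
def BP (M n : ℕ) : Prop := ∀ x g y, X.Adm x g y → X.cs.length x + X.cs.length y < n →
  X.LP M ((M : ℤ) - X.α g) (X.B x g y)

/-- `T_u T_u'`, `ℓ(u) + ℓ(u') ≤ n` -/
def N0 (M n : ℕ) : Prop := ∀ u u', X.cs.length u + X.cs.length u' ≤ n → X.LP M M (X.D.t u * X.D.t u')

/-- `T_u T_b T_u'`, `b ∉ R(u)`, `b ∉ L(u')`, `ℓ(u) + ℓ(u') ≤ n` -/
def N1 (M n : ℕ) : Prop := ∀ (u u' : W) (b : S), ¬ X.cs.IsRightDescent u b → ¬ X.cs.IsLeftDescent u' b →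
  X.cs.length u + X.cs.length u' ≤ n →
  X.LP M ((M : ℤ) - X.L (X.cs.simple b)) (X.D.t u * X.D.t (X.cs.simple b) * X.D.t u')

/-- `L(s_i)` -/
def l (i : S) : ℕ := X.L (X.cs.simple i)

/-- `β` is an admissible bound for the full element `g ∈ W_ij` at the level `M`: (1) `m_ij = 2` or `M ≥ L(w0)`: `β = L(g)`; (2) `M < L(w0)`: `β = max (L_i, L_j)`;
(3), (4) `g = i j i`, `L_j < L_i`, `α(w0 j) ≤ M < L(w0)`: `β = 2 L_i - L_j`. Always `β ≤ M`. -/
def Bd (M : ℕ) (i j : S) (g : W) (β : ℤ) : Prop := β ≤ M ∧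
  (((X.M i j = 2 ∨ X.L (w0 X.cs i j) ≤ M) ∧ β = X.L g) ∨
   (X.M i j ≠ 2 ∧ M < X.L (w0 X.cs i j) ∧ β = max (X.l i) (X.l j)) ∨
   (X.M i j ≠ 2 ∧ M < X.L (w0 X.cs i j) ∧ g = X.cs.simple i * X.cs.simple j * X.cs.simple i ∧ X.l j < X.l i ∧
      X.α (w0 X.cs i j * X.cs.simple j) ≤ M ∧ β = 2 * X.l i - X.l j) ∨
   (X.M i j ≠ 2 ∧ M < X.L (w0 X.cs i j) ∧ g = X.cs.simple j * X.cs.simple i * X.cs.simple j ∧ X.l i < X.l j ∧
      X.α (w0 X.cs i j * X.cs.simple i) ≤ M ∧ β = 2 * X.l j - X.l i))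

/-- full triples with `m_ij ≠ 2`, `ℓ(x) + ℓ(y) < n` -/
def N2 (M n : ℕ) : Prop := ∀ (i j : S) (x g y : W) (β : ℤ), i ≠ j → X.M i j ≠ 2 → XR X.cs {i, j} x → Full X.cs i j g →
  XL X.cs {i, j} y → X.Bd M i j g β → X.cs.length x + X.cs.length y < n →
  X.LP M (max 1 ((M : ℤ) - β)) (X.D.t x * X.D.t g * X.D.t y)

/-- nonreduced full triples with `m_ij ≠ 2`, `ℓ(x) + ℓ(y) < n` -/
def UU (M n : ℕ) : Prop := ∀ (i j : S) (x g y : W) (β : ℤ), i ≠ j → X.M i j ≠ 2 → XR X.cs {i, j} x → Full X.cs i j g →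
  XL X.cs {i, j} y → X.Bd M i j g β → X.cs.length x + X.cs.length y < n →
  X.cs.length (x * g * y) ≠ X.cs.length x + X.cs.length g + X.cs.length y →
  X.LP M ((M : ℤ) - β) (X.D.t x * X.D.t g * X.D.t y)

/-- nonreduced tight triples `(x, s_i s_j, y)` with `m_ij = 2`, `ℓ(x) + ℓ(y) < n` -/
def UT (M n : ℕ) : Prop := ∀ (i j : S) (x y : W), X.M i j = 2 → XR X.cs {i, j} x → XL X.cs {i, j} y → Tight X.cs {i, j} x y →
  X.cs.length x + X.cs.length y < n →
  X.cs.length (x * (X.cs.simple i * X.cs.simple j) * y) ≠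
    X.cs.length x + X.cs.length (X.cs.simple i * X.cs.simple j) + X.cs.length y →
  X.LP M (max 0 ((M : ℤ) - X.l i - X.l j)) (X.D.t x * X.D.t (X.cs.simple i * X.cs.simple j) * X.D.t y)

end TF

end Pool.Agent.Helper74.LF
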