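import Pool.Agent.Helper74.LF.Asm
import Pool.Agent.Helper74.LL.Fin

/-!
# Project LF (MP_cc6379_al): final assembly
-/

set_option autoImplicit false

open LaurentPolynomial Pool.Agent.Helper15.RA Pool.Agent.Helper45.AM Pool.Agent.Helper15.AM

noncomputable section

namespace Pool.Agent.Helper74.LF

theorem Sm.sub {S : Type} {M : CoxeterMatrix S} {I J : Set S} (h : Sm M I) (hJ : J ⊆ I) : Sm M J := by
  rcases h with h | ⟨i, j, rfl⟩
  · exact Or.inl fun a ha b hb => h a (hJ ha) b (hJ hb)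
  · rcases Set.subset_pair_iff_eq.1 hJ with rfl | rfl | rfl | rfl
    · exact sm_empty M
    · exact Or.inr ⟨i, i, by simp⟩
    · exact Or.inr ⟨j, j, by simp⟩
    · exact sm_pair M i j

/-- Groups generated by commuting involutions are good. -/
theorem good_comm {S W : Type} [Finite S] [Group W] {M : CoxeterMatrix S} (cs : CoxeterSystem M W)
    (L : W → ℕ) (hL : IsWeight cs L) (h : ∀ i j, i ≠ j → M i j = 2) : GoodSysU cs L := by
  intro H _ _ D
  obtain ⟨-, h1⟩ := mainF factsF M cs L hL fun P h3 _ hirr => by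
    exfalso
    have hne : P.Nonempty := by
      rw [Set.nonempty_iff_ne_empty]
      rintro rfl
      simp at h3
    obtain ⟨p, hp⟩ := hne
    obtain ⟨i, hi, j, hj, hij⟩ := hirr {p} (Set.singleton_subset_iff.2 hp) ⟨p, rfl⟩ (by
      rintro rfl
      simp at h3)
    refine hij (h i j fun hc => hj.2 ?_)
    rw [← hc]
    exact hi
  obtain ⟨hB, h, a, hg, hu, -⟩ := h1 H D
  exact ⟨hB, h, a, hg, hu⟩

/-- The data `TF`. -/
theorem exists_TF {S W H : Type} [Finite S] [Group W] [Ring H] [Algebra ℤ[T;T⁻¹] H] {M : CoxeterMatrix S}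
    (cs : CoxeterSystem M W) (L : W → ℕ) (hL : IsWeight cs L) (fin : ∀ i j, M i j ≠ 0)
    (tr : ∀ i j k, M i j = 2 → M i k = 2 → j ≠ k → M j k = 2)
    (big : ∀ i j, i ≠ j → M i j ≠ 2 → 6 ≤ M i j)
    (X : Base S W H) (hM : X.M = M) (hcs : HEq X.cs cs) (hXL : X.L = L) :
    ∃ Y : TF S W H, Y.toBase = X := by
  classical
  obtain ⟨M', cs', L', wt, D, h, isH, b, hb⟩ := X
  dsimp only at hM hcs hXL
  subst hM
  subst hXL
  obtain rfl := eq_of_heq hcs
  let X : Base S W H := ⟨M', cs', L', wt, D, h, isH, b, hb⟩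
  have hPG : ∀ I : Set S, Sm M' I → ∃ α : W → ℕ, PG D h I α := by
    intro I hI
    have h1 : GoodSysU (subM M' I).toCoxeterSystem (fun g => L' (iotaP cs' I g)) := by
      rcases hI with hC | ⟨i, j, rfl⟩
      · refine good_comm _ _ ((factsF.gPS S W M' cs' I Subtype.val Subtype.val_injective).2.2.2 L' wt) ?_
        intro a b hab
        exact hC a.1 a.2 b.1 b.2 fun h => hab (Subtype.ext h)
      · refine goodSysU_two factsF _ _ ((factsF.gPS S W M' cs' _ Subtype.val Subtype.val_injective).2.2.2 L' wt)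
          (fun i j => fin i.1 j.1) ?_
        rw [Nat.card_coe_set_eq]
        exact (Set.ncard_insert_le _ _).trans (by simp)
    obtain ⟨α, hα⟩ := factsF.vC S W H X I Subtype.val Subtype.val_injective h1
    rw [Subtype.range_val] at hα
    exact ⟨α, hα⟩
  choose! αI hαI using hPG
  let α : W → ℕ := fun w => if hw : ∃ I : Set S, Sm M' I ∧ w ∈ par cs' I then αI hw.choose w else 0
  have hα : ∀ I : Set S, Sm M' I → ∀ w ∈ par cs' I, α w = αI I w := by
    intro I hI w hw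
    have hex : ∃ I : Set S, Sm M' I ∧ w ∈ par cs' I := ⟨I, hI, hw⟩
    have h1 : α w = αI hex.choose w := dif_pos hex
    obtain ⟨hJ, hwJ⟩ := hex.choose_spec
    set J := hex.choose with hJdef
    rw [h1]
    have hK : Sm M' (I ∩ J) := hI.sub Set.inter_subset_left
    have hwK : w ∈ par cs' (I ∩ J) := by
      have h5 := ((factsF.gPB S W M' cs').2 I).2.2.2.2.2 J
      rw [← h5]
      exact ⟨hw, hwJ⟩
    have e1 := factsF.p12 S W H X (I ∩ J) I (αI (I ∩ J)) (αI I) Set.inter_subset_left (hαI _ hK) (hαI _ hI) w hwK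
    have e2 := factsF.p12 S W H X (I ∩ J) J (αI (I ∩ J)) (αI J) Set.inter_subset_right (hαI _ hK) (hαI _ hJ) w hwK
    rw [← e1, ← e2]
  exact ⟨{ X with
    α := α
    pg := fun I hI => pg_congr (hαI I hI) (hα I hI)
    fin := fin
    tr := tr
    big := big }, rfl⟩

variable (F : Facts)

include F

/-- Coxeter groups with large labels and transitive commuting relation are good (all weight functions). -/
theorem large_good {S W : Type} [Finite S] [Group W] {M : CoxeterMatrix S}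
    (cs : CoxeterSystem M W) (L : W → ℕ) (hL : IsWeight cs L) (fin : ∀ i j, M i j ≠ 0)
    (tr : ∀ i j k, M i j = 2 → M i k = 2 → j ≠ k → M j k = 2)
    (big : ∀ i j, i ≠ j → M i j ≠ 2 → 6 ≤ M i j) :
    GoodSysU cs L := by
  intro H _ _ D
  obtain ⟨h, b, isH, hb⟩ := exists_base cs L hL D
  obtain ⟨Y, hY⟩ := exists_TF cs L hL fin tr big ⟨M, cs, L, hL, D, h, isH, b, hb⟩ rfl HEq.rfl rfl
  have key := pg_univ' F Y k_e7
  obtain ⟨r1, r2, r3⟩ := factsF.vD S W H Y.toBase _ key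
  rw [hY] at r1 r2 r3
  exact ⟨r1, h, _, r2, r3⟩

/-- The main theorem. -/
theorem mainLF {S W : Type} [Finite S] [Group W] (M : CoxeterMatrix S) (cs : CoxeterSystem M W) (L : W → ℕ)
    (hL : IsWeight cs L)
    (hyp : ∀ P : Set S, 3 ≤ P.ncard → (∀ i ∈ P, ∀ j ∈ P, M i j ≠ 0) →
      (∀ A ⊆ P, A.Nonempty → A ≠ P → ∃ i ∈ A, ∃ j ∈ P \ A, M i j ≠ 2) →
      ((∀ i ∈ P, ∀ j ∈ P, ∀ k ∈ P, M i j = 2 → M i k = 2 → j ≠ k → M j k = 2) ∧
        ∀ i ∈ P, ∀ j ∈ P, i ≠ j → M i j ≠ 2 → 6 ≤ M i j) ∨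
      GoodSysU (subM M P).toCoxeterSystem (fun g => L (iotaP cs P g))) :
    (∃ (H : Type) (_ : Ring H) (_ : Algebra ℤ[T;T⁻¹] H), Nonempty (Hecke cs L H)) ∧
    ∀ (H : Type) [Ring H] [Algebra ℤ[T;T⁻¹] H] (D : Hecke cs L H),
      D.Bdd ∧ ∃ h a, Good D h a ∧ HasU h a ∧ JAssoc h a ∧ ∀ h' a', D.IsH h' → IsA h' a' → h' = h ∧ a' = a := by
  refine mainF factsF M cs L hL fun P h3 hfin hirr => ?_
  rcases hyp P h3 hfin hirr with ⟨htr, hbig⟩ | h
  · exact large_good F _ _ ((factsF.gPS S W M cs P Subtype.val Subtype.val_injective).2.2.2 L hL)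
      (fun i j => hfin i.1 i.2 j.1 j.2)
      (fun i j k h1 h2 h3 => htr i.1 i.2 j.1 j.2 k.1 k.2 h1 h2 fun h => h3 (Subtype.ext h))
      (fun i j hij hm => hbig i.1 i.2 j.1 j.2 (fun h => hij (Subtype.ext h)) hm)
  · exact h

end Pool.Agent.Helper74.LF
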