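import Pool.Agent.Helper74.LF.Defs

/-!
# Project LF (MP_cc6379_al): goals, part G. Coxeter groups with large labels (no Hecke algebras here).

Notation: `R(w)`, `L(w)` the sets of right and left descents (`cs.IsRightDescent w i`, `cs.IsLeftDescent w i`), `ℓ` the length, `s_i = cs.simple i`, `u i = u * s_i`.
Mathlib: `isRightDescent_iff : cs.IsRightDescent w i ↔ cs.length (w * cs.simple i) + 1 = cs.length w`, `not_isRightDescent_iff : ¬ .. ↔ cs.length (w * cs.simple i) = cs.length w + 1`,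
`isRightDescent_inv_iff`. `u v` is reduced means `ℓ(u v) = ℓ(u) + ℓ(v)`; then `R(v) ⊂ R(u v)`, `L(u) ⊂ L(u v)`. `m_ij = M i j`; `i ~ j` means `i ≠ j`, `M i j ≠ 2` (so `M i j ≥ 6` by `Lg.big`). `Lg.tr`: commuting is
transitive (`m_ij = m_ik = 2`, `j ≠ k` implies `m_jk = 2`). `M i j = 2` implies `i ≠ j` (`M i i = 1`); `M` is symmetric (`M.symmetric`). Proved facts: `G_PA, G_PB, G_PC, G_D, G_PS` (`k_gpa` .. in `Pool.Agent.Helper15.AM.All`), `X_E` (`Pool.Agent.Helper15.RA.g_xe`).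
-/

set_option autoImplicit false

open Pool.Agent.Helper15.RA Pool.Agent.Helper45.AM

noncomputable section

namespace Pool.Agent.Helper74.LF

/-- PACKET LF-KD1 (2 h). Inside a finite dihedral parabolic subgroup `W_ij`, `i ≠ j`, `m = M i j ≠ 0`.

PROOF. Transfer `R_W` (`RA/GoalsR.lean`, proved: `Pool.Agent.Helper15.RA.g_rw` or similar, see `RA/All.lean`) for the Coxeter system of `subM M {i,j}` by `G_PS` (lengths are preserved, the image of `iotaE` is `par cs {i,j}`), or argue directly: every `z ∈ W_ij` has a reduced word with letters `i, j` (`G_PA`), which is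
alternating, and `G_D`. (1) `w0 = al i j m = al j i m` (`G_D`), `w0⁻¹ = w0`, `ℓ(w0) = m` (`R_W`). (2) the elements of `W_ij` are the `al i j k`, `al j i k`, `k ≤ m`, of length `k`; `z ≠ w0` has length `< m`. `z = al i j k`: `w0 = z u` with `u` alternating of length `m - k`: `z⁻¹ w0 = u`, so `ℓ(z⁻¹ w0) = m - ℓ(z)`; replace `z` by `z⁻¹`; the right version by inverses
(`w0⁻¹ = w0`). (3) if `i, j ∈ R(z)` then `ℓ(z) ≥ m` (`G_D`), so `z = w0`; `z ≠ 1` has a last letter, which is `i` or `j`. (4) `W_i = {1, s_i}`; so `z ∈ W_ij` is full iff `z ∉ {1, s_i, s_j}` iff `ℓ(z) ≥ 2`. (5) alternating words of length 1, 2, 3. (6) `m ≥ 3`: `iji ≠ jij` only if `m ≠ 3`: stated for `m ≥ 6`; `ij = ji` iff `m = 2` (`k_gord`: `orderOf (s_i s_j) = M i j`). -/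
def KD1 : Prop := ∀ (S W : Type) [Group W] (M : CoxeterMatrix S) (cs : CoxeterSystem M W) (i j : S), i ≠ j → M i j ≠ 0 →
  (w0 cs i j ∈ par cs {i, j} ∧ w0 cs i j = w0 cs j i ∧ (w0 cs i j)⁻¹ = w0 cs i j ∧ cs.length (w0 cs i j) = M i j ∧
    w0 cs i j * w0 cs i j = 1) ∧
  (∀ z ∈ par cs {i, j}, cs.length z ≤ M i j ∧ (z ≠ w0 cs i j → cs.length z < M i j) ∧
    cs.length (w0 cs i j * z) + cs.length z = M i j ∧ cs.length (z * w0 cs i j) + cs.length z = M i j) ∧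
  (∀ z ∈ par cs {i, j}, (z ≠ w0 cs i j → ¬ (cs.IsRightDescent z i ∧ cs.IsRightDescent z j) ∧
      ¬ (cs.IsLeftDescent z i ∧ cs.IsLeftDescent z j)) ∧
    (z ≠ 1 → (cs.IsRightDescent z i ∨ cs.IsRightDescent z j) ∧ (cs.IsLeftDescent z i ∨ cs.IsLeftDescent z j))) ∧
  (cs.IsRightDescent (w0 cs i j) i ∧ cs.IsRightDescent (w0 cs i j) j ∧ cs.IsLeftDescent (w0 cs i j) i ∧
    cs.IsLeftDescent (w0 cs i j) j) ∧
  (∀ z, Full cs i j z ↔ z ∈ par cs {i, j} ∧ 2 ≤ cs.length z) ∧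
  (∀ z ∈ par cs {i, j}, (cs.length z = 1 → z = cs.simple i ∨ z = cs.simple j) ∧
    (cs.length z = 2 → z = cs.simple i * cs.simple j ∨ z = cs.simple j * cs.simple i) ∧
    (cs.length z = 3 → z = cs.simple i * cs.simple j * cs.simple i ∨ z = cs.simple j * cs.simple i * cs.simple j)) ∧
  (M i j ≠ 2 → cs.simple i * cs.simple j ≠ cs.simple j * cs.simple i) ∧
  (M i j = 2 → w0 cs i j = cs.simple i * cs.simple j ∧ cs.simple i * cs.simple j = cs.simple j * cs.simple i) ∧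
  cs.length (cs.simple i * cs.simple j) = 2 ∧
  (3 ≤ M i j → cs.length (cs.simple i * cs.simple j * cs.simple i) = 3) ∧
  (6 ≤ M i j → cs.simple i * cs.simple j * cs.simple i ≠ cs.simple j * cs.simple i * cs.simple j)

/-- PACKET LF-KD2 (2 h). Descents and dihedral suffixes and prefixes, and Deodhar's lemma. `i ≠ j`, `m = M i j ≠ 0`.

PROOF. (1) `i, j ∈ R(w)`: `w = u z`, `XR {i,j} u`, `z ∈ W_ij`, `ℓ(w) = ℓ(u) + ℓ(z)` (`G_PA`); `ℓ(w s_i) < ℓ(w)` gives `ℓ(z s_i) < ℓ(z)` (lengths are additive), same for `j`, so `z = w0` (`KD1` (3)). (2) the same by inverses. (3) `ℓ(u z s_i) = ℓ(u) + ℓ(z s_i)`. (4) From (1), (3) and `KD1`: `w = u w0`; `w i = u (w0 i)`, `w i j = u (w0 i j)`, ..; `w0 s_i` has length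
`m - 1` and, if `m ≥ 2`, is not `1` and not `w0` and `i ∉ R(w0 s_i)` so `j ∈ R(w0 s_i)`; `w0 s_i s_j` has length `m - 2`, if `m ≥ 3` it is not `1` and `j ∉ R`, so `i ∈ R`, and so on (at most four letters are removed and `m ≥ 6`). (5) the left versions: inverses. (6) `M i j = 2`, `i ∉ R(x)`, `j ∈ R(x)`: `x = x' j` reduced, `x i = x' j i = x' i j`, so `ℓ(x i j) ≤ ℓ(x') + 1 = ℓ(x) < ℓ(x i)`.
(7) Deodhar's lemma: let `g ∈ W_P`, `y ∈ Y_P`, `t ∈ R(g y)`, `t ∉ R(y)`. If `XL P (y s_t)` then `ℓ(g y s_t) = ℓ(g) + ℓ(y s_t) = ℓ(g) + ℓ(y) + 1 = ℓ(g y) + 1` (`G_PC`), contradiction. So there is `e ∈ P` with `ℓ(s_e y s_t) < ℓ(y s_t) = ℓ(y) + 1` (it is not `+1`), i.e. `ℓ(s_e y s_t) ≤ ℓ(y) < ℓ(y) + 1 = ℓ(s_e y)`; `X_E` with `(i, j, w) := (e, t, y)`: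
`s_e y = y s_t`. Then `g y s_t = g s_e y`, `ℓ(g s_e y) = ℓ(g s_e) + ℓ(y)`, so `ℓ(g s_e) < ℓ(g)`. (8) prefixes: `XL P (y p)`, `ℓ(y p) = ℓ(y) + ℓ(p)`: if `ℓ(s_i y) < ℓ(y)` then `ℓ(s_i y p) ≤ ℓ(s_i y) + ℓ(p) < ℓ(y p)`. (9) descents of reduced products. -/
def KD2 : Prop := ∀ (S W : Type) [Group W] (M : CoxeterMatrix S) (cs : CoxeterSystem M W),
  (∀ i j, i ≠ j → M i j ≠ 0 → ∀ w, cs.IsRightDescent w i → cs.IsRightDescent w j →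
    (∃ u, XR cs {i, j} u ∧ w = u * w0 cs i j ∧ cs.length w = cs.length u + M i j) ∧
    cs.IsRightDescent (w * cs.simple i) j ∧
    (6 ≤ M i j → cs.IsRightDescent (w * cs.simple i * cs.simple j) i ∧
      cs.IsRightDescent (w * cs.simple i * cs.simple j * cs.simple i) j ∧
      cs.IsRightDescent (w * cs.simple i * cs.simple j * cs.simple i * cs.simple j) i)) ∧
  (∀ i j, i ≠ j → M i j ≠ 0 → ∀ w, cs.IsLeftDescent w i → cs.IsLeftDescent w j →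
    (∃ u, XL cs {i, j} u ∧ w = w0 cs i j * u ∧ cs.length w = M i j + cs.length u) ∧
    cs.IsLeftDescent (cs.simple i * w) j ∧
    (6 ≤ M i j → cs.IsLeftDescent (cs.simple j * (cs.simple i * w)) i ∧
      cs.IsLeftDescent (cs.simple i * (cs.simple j * (cs.simple i * w))) j ∧
      cs.IsLeftDescent (cs.simple j * (cs.simple i * (cs.simple j * (cs.simple i * w)))) i)) ∧
  (∀ (P : Set S) (u z : W) (i : S), XR cs P u → z ∈ par cs P → i ∈ P →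
    (cs.IsRightDescent (u * z) i ↔ cs.IsRightDescent z i)) ∧
  (∀ (P : Set S) (u z : W) (i : S), XL cs P u → z ∈ par cs P → i ∈ P →
    (cs.IsLeftDescent (z * u) i ↔ cs.IsLeftDescent z i)) ∧
  (∀ i j x, M i j = 2 → ¬ cs.IsRightDescent x i → cs.IsRightDescent x j → cs.IsRightDescent (x * cs.simple i) j) ∧
  (∀ i j x, M i j = 2 → ¬ cs.IsLeftDescent x i → cs.IsLeftDescent x j → cs.IsLeftDescent (cs.simple i * x) j) ∧
  (∀ (P : Set S) (g y : W) (t : S), g ∈ par cs P → XL cs P y → cs.IsRightDescent (g * y) t → ¬ cs.IsRightDescent y t →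
    ∃ e ∈ P, cs.IsRightDescent g e ∧ cs.simple e * y = y * cs.simple t) ∧
  (∀ (P : Set S) (y p : W), XL cs P (y * p) → cs.length (y * p) = cs.length y + cs.length p → XL cs P y) ∧
  (∀ (P : Set S) (p x : W), XR cs P (p * x) → cs.length (p * x) = cs.length p + cs.length x → XR cs P x) ∧
  (∀ (u v : W) (i : S), cs.length (u * v) = cs.length u + cs.length v →
    (cs.IsRightDescent v i → cs.IsRightDescent (u * v) i) ∧ (cs.IsLeftDescent u i → cs.IsLeftDescent (u * v) i)) ∧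
  (∀ i j, M i j = 2 → cs.simple i * cs.simple j = cs.simple j * cs.simple i)

/-- PACKET LF-K1 (2 h). From `KD2`. The key lemma and its consequences (each also for left descents, by inverses).

PROOF. K1, strong induction on `ℓ(w)`. Suppose `a ~ b`. `w₁ := w a`: `b, c ∈ R(w₁)`. If `b ~ c`: `a ∈ R(w₁ b) = R(w a b)` (`KD2`, `a, b ∈ R(w)`, `m_ab ≥ 6`) and `c ∈ R(w₁ b)` (`KD2`, `b, c ∈ R(w₁)`): the induction hypothesis for `(w₁; b, c, a)` (it needs `b, c ∈ R(w₁)`, `c, a ∈ R(w₁ b)`) gives `m_bc = 2`, contradiction. If `m_bc = 2`: `m_ac ≠ 2`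
(`tr` for `c`: otherwise `m_ab = 2`). `w₂ := w a b`: `a ∈ R(w₂)` (as before), `c ∈ R(w₂)` (`b, c ∈ R(w₁)`). `w₂ a = w a b a`: `b ∈ R(w₂ a)` (`KD2`, `m_ab ≥ 6`), `c ∈ R(w₂ a)` (`a, c ∈ R(w₂)`). The induction hypothesis for `(w₂; a, c, b)` (`a, c ∈ R(w₂)`, `c, b ∈ R(w₂ a)`) gives `m_ac = 2`, contradiction.
T3: three different `a, b, c ∈ R(w)` commute: suppose `a ~ b`. Not both `m_ac = 2` and `m_bc = 2` (`tr`); so `a` or `b`, call it `p`, commutes with none of the two others, `q` and `r`. `q, r ∈ R(w p)` (`KD2`), so `m_pq = 2` by K1, contradiction. CL1: suppose `a ~ c`. `c ∈ R(w a)` (`KD2`). K1 for `(w; a, c, b)`: `m_ac = 2`, contradiction. (`b ≠ a` because `a ∉ R(w a)`.)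
SZ: let `ℓ(z) ≥ 3`, `b ∈ R(x z)`, `b ∉ {a,c}`. Let `p ∈ {a,c}` be in `R(z)`, `q` the other one; `z = z' q p` reduced with `z' ≠ 1` or at least `z = (z p) p`, `q ∈ R(z p)`, `p ∈ R(z p q)` (`z p`, `z p q` are in `W_ac`, not `1`, and `p ∉ R(z p)`, `q ∉ R(z p q)`; `KD1`). So (`KD2` (3)) `p ∈ R(x z)`, `q ∈ R(x z p)`, `p ∈ R(x z p q)`. CL1 for `x z`: `m_pb = 2`. `b ∈ R(x z p)` (`KD2`, `p, b ∈ R(x z)`).
CL1 for `x z p`: `q ∈ R(x z p)`, `p ∈ R(x z p q)`, `b ∈ R(x z p)`: `m_qb = 2`. `tr`: `m_pq = 2`, but `m_ac ≥ 3` as `ℓ(z) ≥ 3`, contradiction. (If `ℓ(z) = 3` everything is still fine: `z p q` has length `1`.) (Use `KD1` for the facts on `z`.)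
CA (left version as stated): `u`, `m_bc = 2`, `a ~ b` (hypothesis), `a ~ c` (`tr`), `a ∈ L(u)`, `b ∈ L(a u)`, `c ∉ L(u)`, suppose `a ∈ L(c u)`. `c, a ∈ L(c u)`, `m_ac ≥ 6`: `KD2` (left, `w = c u`, `i = c`, `j = a`): `a ∈ L(u)`, `c ∈ L(a u)`, `a ∈ L(c a u)`, `c ∈ L(a c a u)`. `b, c ∈ L(a u)`, so `b ∈ L(c a u)`. `w₃ := c a u`: `a, b ∈ L(w₃)`, `b ∈ L(a w₃)` (`KD2`), `c ∈ L(a w₃)`:
K1 (left version) gives `m_ab = 2`, contradiction. -/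
def K1 : Prop := ∀ (S W : Type) [Group W] (M : CoxeterMatrix S) (cs : CoxeterSystem M W), Lg M →
  (∀ w a b c, a ≠ b → a ≠ c → b ≠ c → cs.IsRightDescent w a → cs.IsRightDescent w b →
    cs.IsRightDescent (w * cs.simple a) b → cs.IsRightDescent (w * cs.simple a) c → M a b = 2) ∧
  (∀ w a b c, a ≠ b → a ≠ c → b ≠ c → cs.IsLeftDescent w a → cs.IsLeftDescent w b →
    cs.IsLeftDescent (cs.simple a * w) b → cs.IsLeftDescent (cs.simple a * w) c → M a b = 2) ∧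
  (∀ w a b c, a ≠ b → a ≠ c → b ≠ c → cs.IsRightDescent w a → cs.IsRightDescent w b → cs.IsRightDescent w c → M a b = 2) ∧
  (∀ w a b c, a ≠ b → a ≠ c → b ≠ c → cs.IsLeftDescent w a → cs.IsLeftDescent w b → cs.IsLeftDescent w c → M a b = 2) ∧
  (∀ w a b c, c ≠ a → c ≠ b → cs.IsRightDescent w a → cs.IsRightDescent (w * cs.simple a) b →
    cs.IsRightDescent w c → M a c = 2) ∧
  (∀ w a b c, c ≠ a → c ≠ b → cs.IsLeftDescent w a → cs.IsLeftDescent (cs.simple a * w) b →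
    cs.IsLeftDescent w c → M a c = 2) ∧
  (∀ a b c x z, a ≠ c → b ≠ a → b ≠ c → XR cs {a, c} x → z ∈ par cs {a, c} → cs.IsRightDescent (x * z) b →
    cs.length z ≤ 2) ∧
  (∀ a b c y z, a ≠ c → b ≠ a → b ≠ c → XL cs {a, c} y → z ∈ par cs {a, c} → cs.IsLeftDescent (z * y) b →
    cs.length z ≤ 2) ∧
  (∀ a b c u, a ≠ b → a ≠ c → M a b ≠ 2 → M b c = 2 → cs.IsLeftDescent u a → cs.IsLeftDescent (cs.simple a * u) b →
    ¬ cs.IsLeftDescent u c → ¬ cs.IsLeftDescent (cs.simple c * u) a) ∧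
  (∀ a b c u, a ≠ b → a ≠ c → M a b ≠ 2 → M b c = 2 → cs.IsRightDescent u a → cs.IsRightDescent (u * cs.simple a) b →
    ¬ cs.IsRightDescent u c → ¬ cs.IsRightDescent (u * cs.simple c) a)

/-- PACKET LF-EXC (1.5 h). From `KD2`, `K1`. (Here `r = ρ''`, `t = τ`; new hypothesis `m_rt ≠ 2`.)

PROOF. `w := x b` (reduced), `b ≠ 1`; take `π ∈ R(b)`; `π ≠ r, t`; `π ∈ R(w)`. CL1 for `(w; r, t, π)`: `m_(r π) = 2`. `b = b₃ π` reduced. `r ∈ R(x b₃)` (`π, r ∈ R(w)`, `KD2`: `r ∈ R(w π)`). `r ∉ R(b₃)` (otherwise `r ∈ R(b₃ π) = R(b)` by `KD2` (5), as `π ∉ R(b₃)`). Suppose `b₃ ≠ 1` and let `p ∈ R(b₃)`: `p ≠ π`, `p ≠ r`, `p ∈ R(x b₃)`. `u := x b₃ r`; `ℓ(u) = ℓ(x b₃) - 1`;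
`w r = x b₃ π r = x b₃ r π = u π`, of length `ℓ(w) - 1 = ℓ(u) + 1`, so `π ∈ R(u π)`; `t ∈ R(u π)`; `t ≠ π`, `m_(t π) ≠ 2` (`tr` for `π`: otherwise `m_rt = 2`), so `≥ 6`. `KD2` for `u π` with `i = π`, `j = t`: `t ∈ R(u)`, `π ∈ R(u t)`, `t ∈ R(u t π)`, `π ∈ R(u t π t)`. `r, p ∈ R(x b₃)`: `p ∈ R(u)` (`KD2`); if `m_(r p) ≠ 2` then `r ∈ R(u p)` (`KD2` with `i = r`, `j = p`).
Case `p ≠ t`: CL1 for `(u; t, π, p)`: `m_(t p) = 2`, so `m_(r p) ≠ 2` (`tr` for `p`: otherwise `m_rt = 2`), `u t p = u p t`. `p ∈ R(u t)` (`KD2`), `π ∈ R(u t)`, so `π ∈ R(u t p)` (`KD2`); `t ∈ R(u p)` and `r ∈ R(u p)`, so `r ∈ R(u p t) = R(u t p)`. K1 for `(u t; p, π, r)`: `m_(p π) = 2`; with `m_(π r) = 2`, `p ≠ r`: `m_(p r) = 2` (`tr` for `π`), contradiction.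
Case `p = t`: `m_(r p) = m_rt ≠ 2`, so `r ∈ R(u t)`, and `π ∈ R(u t)`; `w'' := u t π`: `t ∈ R(w'')`, `r ∈ R(w'')` (`KD2`), `π ∈ R(w'' t)`, `r ∈ R(w'' t)` (`KD2`). K1 for `(w''; t, r, π)`: `m_(t r) = 2`, contradiction.
So `b₃ = 1`, `b = s_π`, `r ∈ R(x b₃) = R(x)`, and `t ∈ R(x b r) = R(x π r) = R(x r π)`. -/
def EXC : Prop := ∀ (S W : Type) [Group W] (M : CoxeterMatrix S) (cs : CoxeterSystem M W), Lg M →
  ∀ (x b : W) (r t : S), cs.length (x * b) = cs.length x + cs.length b → b ≠ 1 → r ≠ t → M r t ≠ 2 →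
    cs.IsRightDescent (x * b) r → ¬ cs.IsRightDescent b r → ¬ cs.IsRightDescent b t →
    cs.IsRightDescent (x * b * cs.simple r) t →
    ∃ p, b = cs.simple p ∧ M r p = 2 ∧ cs.IsRightDescent x r ∧ cs.IsRightDescent (x * cs.simple r * cs.simple p) t

/-- PACKET LF-STEP (2 h). From `KD1`, `KD2`, `K1`, `EXC`. Here `r = ρ`, `s = σ`, `c = b''`; `r' = ρ''`, `t' = τ`, `m = M s r`.

PROOF. `s ≠ r`. `w := x b`: `r, s ∈ R(w)` (`s ∈ R(b)`). So `w = u w0`, `w0 = w0 cs s r`, `XR {s,r} u` (`KD2`). `b = c p`, `ℓ(b) = ℓ(c) + ℓ(p)`; `x c` is reduced and `w = (x c) p`, `ℓ(w) = ℓ(x c) + ℓ(p)`. `p ≠ 1` (`s ∈ R(b)` and `XR {s,r} c`: `s ∈ R(p)` by `KD2`), `r ∉ R(p)` (`KD2` (3), (9)), so `p ≠ w0` and `1 ≤ ℓ(p) ≤ m - 1`. `q := w0 p⁻¹ ∈ W_sr` has length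
`m - ℓ(p) ≥ 1` (`KD1` for `p⁻¹`), `x c = u q`, so `R(x c) ∩ {s,r} = R(q)` (`KD2`). `p` has exactly one left descent `t'` in `{s,r}` (`KD1`); let `r'` be the other one. `q p = w0` with lengths adding, so `t' ∉ R(q)` (otherwise `q p = (q t') (t' p)` would have length `≤ m - 2`), and `q ≠ 1`, so `r' ∈ R(q)`, `r' ∈ R(x c)`. `r' ∉ R(c)` by `XR`.
If `ℓ(p) = m - 1`: `ℓ(p s_r) = m`, `ℓ(s_(r') p) = m`, both in `W_sr`, so both are `w0` (`KD1`). If `ℓ(p) = m - 2`: `q` has length `2`, `q = t' r'`, so `t' ∈ R(q r')` and `t' ∈ R(x c r')`; if `c ≠ 1` then `EXC` for `(x, c, r', t')` gives the third alternative (`ℓ(p) ≥ 1`, so `m ≥ 3`, `M s r ≠ 2`). If `ℓ(p) ≤ m - 3` and `c ≠ 1`: take `π ∈ R(c)`, `π ∉ {s,r}`, `π ∈ R(x c)`; `ℓ(q) ≥ 3`: `r' ∈ R(q)`,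
`t' ∈ R(q r')`, `r' ∈ R(q r' t')`, so the same for `x c = u q`. This contradicts `SZ` in `K1` (`x := u`, `z := q`, `b := π`). -/
def STEP : Prop := ∀ (S W : Type) [Group W] (M : CoxeterMatrix S) (cs : CoxeterSystem M W), Lg M →
  ∀ (x b c p : W) (r s : S), cs.length (x * b) = cs.length x + cs.length b → cs.IsRightDescent (x * b) r →
    ¬ cs.IsRightDescent b r → cs.IsRightDescent b s → XR cs {s, r} c → p ∈ par cs {s, r} → b = c * p →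
    ∃ r' t' : S, ((r' = r ∧ t' = s) ∨ (r' = s ∧ t' = r)) ∧ cs.IsLeftDescent p t' ∧ ¬ cs.IsLeftDescent p r' ∧
      cs.IsRightDescent (x * c) r' ∧ ¬ cs.IsRightDescent c r' ∧ cs.length (x * c) = cs.length x + cs.length c ∧
      (c = 1 ∨ (cs.length p + 1 = M s r ∧ p * cs.simple r = cs.simple r' * p) ∨
        (cs.length p + 2 = M s r ∧ ∃ q, c = cs.simple q ∧ M r' q = 2 ∧ cs.IsRightDescent x r' ∧
          cs.IsRightDescent (x * cs.simple r' * cs.simple q) t'))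

/-- PACKET LF-NEWD (1 h). From `KD1`, `KD2`, `K1`.

PROOF. `r ∉ {i,j}` (`KD2` (3): `R(x g) ∩ {i,j} = R(g)`). If `i, j ∈ R(g)`: three descents of `x g`: `m_ij = m_ir = m_jr = 2` (`T3`), `g = w0 = i j` (`KD1`), `(a, b) := (i, j)`, `r ∈ R(x g j)` (`KD2`, `j, r ∈ R(x g)`), `x g j = x i`. Otherwise: `g ≠ 1`; let `b ∈ {i,j}` be the right descent of `g`, `a` the other element. `g = g₁ b` reduced, `g₁ ∈ W_ij`, `g₁ ≠ 1` (`ℓ(g) ≥ 2` by `KD1`), `b ∉ R(g₁)`, so `a ∈ R(g₁)`. So `b ∈ R(x g)`, `a ∈ R(x g b)`, `r ∈ R(x g)`: CL1: `m_br = 2`. `r ∈ R(x g b)` (`KD2`).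
If `ℓ(g) ≥ 3`: `g₁ a ≠ 1`, `a ∉ R(g₁ a)`, so `b ∈ R(g₁ a)`; CL1 for `x g b`: `a ∈ R(x g b)`, `b ∈ R(x g b a)`, `r ∈ R(x g b)`: `m_ar = 2`; `tr` for `r`: `m_ab = 2`, but `ℓ(g) ≥ 3`, contradiction. So `ℓ(g) = 2`, `g = a b` (`KD1`), `r ∈ R(x g b) = R(x a)`. -/
def NEWD : Prop := ∀ (S W : Type) [Group W] (M : CoxeterMatrix S) (cs : CoxeterSystem M W), Lg M →
  ∀ (i j : S) (x g : W) (r : S), i ≠ j → XR cs {i, j} x → Full cs i j g → cs.IsRightDescent (x * g) r →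
    ¬ cs.IsRightDescent g r →
    ∃ a b : S, ((a = i ∧ b = j) ∨ (a = j ∧ b = i)) ∧ g = cs.simple a * cs.simple b ∧ M b r = 2 ∧ r ≠ a ∧ r ≠ b ∧
      cs.IsRightDescent (x * cs.simple a) r

/-- PACKET LF-HARD (3 h). From `KD1`, `KD2`, `K1`. Here `p = θ'`, `q = θ''`, `y = y''`, `I = {i,j}`; new hypothesis `m_pq ≠ 2`.

PROOF. `v := x g y`. Deodhar (`KD2`): there is `e ∈ I` with `e ∈ R(g)`, `s_e y = y s_p`. Let `θ ∈ R(y)`; `θ ≠ p, q`. `θ, p ∈ R(v)` (`x (g y)`, `g y` reduced). `v p = x g y p = x (g e) y`. `q ∈ R(v p)`.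
(1) `m_(p θ) = 2`: `θ ∈ R(v p)` (`KD2`), K1 for `(v; p, θ, q)`. So `m_(θ q) ≠ 2` (`tr` for `θ`: otherwise `m_pq = 2`), `≥ 6`. `θ, q ∈ R(v p)`.
(2) `y = y₃ θ` reduced. Claim `y₃ = 1`. Otherwise let `θ₃ ∈ R(y₃)`, `θ₃ ≠ θ`; `p ∉ R(y₃)` (else `p ∈ R(y)` by `KD2` (5)), so `θ₃ ≠ p`. `v₃ := x g y₃`, `v = v₃ θ` reduced; `p ∈ R(v₃)` (`KD2` for `v`: `θ, p ∈ R(v)`), `θ₃ ∈ R(v₃)`. `v p = v₃ θ p = v₃ p θ`. `KD2` for `v p` with `i = θ`, `j = q`: `q ∈ R(v₃ p)`, `θ ∈ R(v₃ p q)`, `q ∈ R(v₃ p q θ)`, `θ ∈ R(v₃ p q θ q)`.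
If `θ₃ ≠ q`: `θ₃ ∈ R(v₃ p)` (`KD2`), K1 for `(v₃; p, θ₃, q)`: `m_(p θ₃) = 2`. CL1 for `(v₃ p; q, θ, θ₃)` (`q ∈ R(v₃ p)`, `θ ∈ R(v₃ p q)`, `θ₃ ∈ R(v₃ p)`, `θ₃ ≠ q, θ`): `m_(q θ₃) = 2`; `tr` for `θ₃`: `m_pq = 2`, contradiction. If `θ₃ = q`: `p, q ∈ R(v₃)`, `m_pq ≠ 2`, `KD2` for `v₃`, `i = p`, `j = q`: `p ∈ R(v₃ p q)`. `w₂ := v₃ p q`: `θ, p ∈ R(w₂)`, so `p ∈ R(w₂ θ)`; `q ∈ R(w₂ θ)`; `p ∈ R(w₂ θ q)` (`KD2`), `θ ∈ R(w₂ θ q)`. K1 for `(w₂ θ; q, p, θ)`: `m_qp = 2`, contradiction.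
(3) So `y = s_θ`, and `s_e s_θ = s_θ s_p = s_p s_θ`, `e = p` (`cs.simple` is injective, `G_PB`). So `p ∈ I`, `p ∈ R(g)`; `θ ∉ I` (`XL I s_θ`). Let `I = {a, p}`. `g₁ := g p ∈ W_I`, `ℓ(g₁) = ℓ(g) - 1 ≥ 1`, `p ∉ R(g₁)`, so `a ∈ R(g₁)`. `w := v p = x g₁ θ`, `ℓ(w) = ℓ(x) + ℓ(g₁) + 1`, `θ, q ∈ R(w)`. `KD2` for `w`, `i = θ`, `j = q`: `q ∈ R(x g₁)`, `θ ∈ R(x g₁ q)`, `q ∈ R(x g₁ q θ)`, `θ ∈ R(x g₁ q θ q)`.
(4) `q ∈ I`: otherwise `q ≠ a`, `w₁ := x g₁`: `a, q ∈ R(w₁)`, `θ ∈ R(w₁ q)`. CL1 for `(w₁; q, θ, a)`: `m_qa = 2`. `w'' := w₁ q`: `a ∈ R(w'')` (`KD2`), `θ ∈ R(w'')`, so `a ∈ R(w'' θ)` (`KD2`), `q ∈ R(w'' θ)`. K1 for `(w''; θ, a, q)`: `m_(θ a) = 2`; `tr` for `a`: `m_(θ q) = 2`, contradiction. So `q = a` (`q ≠ p`). `m_ap = m_pq ≠ 2`.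
(5) `ℓ(g₁) = 1`: otherwise `g₂ := g₁ a ≠ 1`, `a ∉ R(g₂)`, so `p ∈ R(g₂)`. `w₃ := x g₁ a = x g₂`: `p ∈ R(w₃)`, `θ ∈ R(w₃)` (by (3), `q = a`), so `p ∈ R(w₃ θ)` (`KD2`), `a ∈ R(w₃ θ)` (3), `p ∈ R(w₃ θ a)` (`KD2`), `θ ∈ R(w₃ θ a)` (3). K1 for `(w₃ θ; a, p, θ)`: `m_ap = 2`, contradiction. So `g₁ = s_a`, `g = a p`.
(6) By (3): `θ ∈ R(x g₁ a) = R(x)`, `a ∈ R(x θ)`, `a ∈ R(w) = R(x a θ)`. `ℓ(x a θ) = ℓ(x) + 2`, so `θ ∉ R(x a)`. Last clause: `g y p = a p θ p = a θ` (`p`, `θ` commute), of length `2`; `a ∈ R(a θ)` would give `ℓ(a θ a) = 1`, `a θ a = s_c`, and `m_(a θ) ≥ 6`: not possible (`KD1`: `ℓ(a θ a) = 3`). -/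
def HARD : Prop := ∀ (S W : Type) [Group W] (M : CoxeterMatrix S) (cs : CoxeterSystem M W), Lg M →
  ∀ (i j : S) (x g y : W) (p q : S), i ≠ j → XR cs {i, j} x → Full cs i j g → XL cs {i, j} y → y ≠ 1 → p ≠ q → M p q ≠ 2 →
    cs.length (x * g * y) = cs.length x + cs.length g + cs.length y →
    ¬ cs.IsRightDescent y p → ¬ cs.IsRightDescent y q → cs.IsRightDescent (g * y) p →
    cs.IsRightDescent (x * g * y * cs.simple p) q →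
    ∃ θ : S, y = cs.simple θ ∧ M θ p = 2 ∧ ((p = i ∧ q = j) ∨ (p = j ∧ q = i)) ∧ θ ≠ q ∧
      g = cs.simple q * cs.simple p ∧ cs.IsRightDescent x θ ∧ cs.IsRightDescent (x * cs.simple θ) q ∧
      cs.IsRightDescent (x * cs.simple q * cs.simple θ) q ∧ ¬ cs.IsRightDescent (x * cs.simple q) θ ∧
      ¬ cs.IsRightDescent (g * y * cs.simple p) q

/-- One of the four types. -/
def T4 {S W : Type} [Group W] {M : CoxeterMatrix S} (cs : CoxeterSystem M W) (x g y : W) : Prop :=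
  TA cs x g y ∨ TB cs x g y ∨ TBm cs x g y ∨ TC cs x g y

/-- PACKET LF-TR (1.5 h). From `KD1`, `KD2`. The types of `(x, g, Y)` and of `(x, g, Y y₁)`.

PROOF. `y := Y y₁`. `XL {i,j} Y` (`KD2`, prefix). TA: `g = a b`, `a ≠ b`: a reduced word (`KD1`) of an element of `W_ij`, so `a, b ∈ {i,j}` (`G_PB`). `ℓ(b y) = ℓ(y) + 1 = ℓ(b Y) + ℓ(y₁)`, so `c ∈ L(b Y)` gives `c ∈ L(b y)`: TA. TB: `g = a c`, `a, c ∈ {i,j}`; `ℓ(c y) = ℓ(c Y) + ℓ(y₁)`. If `b ∉ L(c y)`: `ℓ(b c y) = ℓ(y) + 2`, `b ∉ L(c Y)`,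
`ℓ(b c Y) = ℓ(Y) + 2`: `b c y = (b c Y) y₁` is reduced and `c ∈ L(b c y)`: TB. If `b ∈ L(c y)`: TA for `(a, c, b)`: `b ∈ R(x a)` by `KD2` (5) (`a ∉ R(x)`, `b ∈ R(x)`). TBm: `g = c b`, `b, c ∈ {i,j}`. `a ∈ L(Y)`, so `a ∈ L(y)`, `ℓ(a Y) = ℓ(Y) - 1`, `ℓ(a y) = ℓ(y) - 1`. `b ∉ L(a y)`: otherwise `b ∈ L(a (a y)) = L(y)` by `KD2` (6) (`a ∉ L(a y)`, `m_ab = 2`), but `b ∈ {i,j}`. Same for
`Y`. So `ℓ(b a y) = ℓ(y)`, `ℓ(b a Y) = ℓ(Y)`, `b a y = (b a Y) y₁` is reduced: `c ∈ L(b a y)`. TC: `m_ab ≠ 2` (in the definition), `m_ab ≥ 6`; `g = a b a` is a reduced word (`KD1`), `a, b ∈ {i,j}` (`G_PB`); as for TA. -/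
def TR : Prop := ∀ (S W : Type) [Group W] (M : CoxeterMatrix S) (cs : CoxeterSystem M W), Lg M →
  ∀ (i j : S) (x g Y y₁ : W), i ≠ j → XR cs {i, j} x → g ∈ par cs {i, j} →
    cs.length (Y * y₁) = cs.length Y + cs.length y₁ → XL cs {i, j} (Y * y₁) → T4 cs x g Y → T4 cs x g (Y * y₁)

/-- PACKET LF-GEO1 (3 h). From `KD1`, `KD2`, `STEP`, `NEWD`, `HARD`, `TR`. `I = {i,j}`, `r = ρ`.

PROOF. Strong induction on `ℓ(y)`. `XL I y` (prefix), `g (y r)` is reduced (`G_PC`), so `r ∉ R(g y)`; `r ∉ R(y)`. Case `y = 1`: `NEWD`: `g = a b`, `m_br = 2`, `r ∈ R(x a)`: TA with `c = r`: `b r = r b`, `r ∈ L(b r)`. Case `y ≠ 1`: let `s ∈ R(y)`, `s ≠ r`, `s ∈ R(g y)`. `y = y₂ p₁`, `XR {s,r} y₂`, `p₁ ∈ W_sr`, `p₁ ≠ 1`; `g y₂ = b p₂`, `XR {s,r} b`, `p₂ ∈ W_sr` (`G_PA`). `p := p₂ p₁`, `g y = b p`, and `ℓ(p) = ℓ(p₂) + ℓ(p₁)`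
(`ℓ(g y) = ℓ(g y₂) + ℓ(p₁) = ℓ(b) + ℓ(p₂) + ℓ(p₁)` and `= ℓ(b) + ℓ(p)`). `XL I y₂`. `STEP` for `(x, g y, b, p, r, s)`: `r'`, `t'`.
(I) `p₂ = 1`: `b = g y₂`, `ℓ(b) ≥ 2`, so `b ≠ 1` and `b` is not some `s_q`: second alternative: `p r = r' p`, `p = p₁`. `y r = y₂ p r = (y₂ r') p`, `ℓ(y r) = ℓ(y₂) + ℓ(p) + 1`, so this is reduced and `ℓ(y₂ r') = ℓ(y₂) + 1`, `XL I (y₂ r')`. `r' ∈ R(x g y₂)`. Induction for `(y₂, r')`: `T4 (x, g, y₂ r')`, and `TR` with `Y = y₂ r'`, `y₁ = p`.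
(If `p₂ ≠ 1`: `ℓ(p) ≥ 2` and `p ≠ w0` (`r ∉ R(g y)`), so `M s r ≥ 3`, `M s r ≠ 2`.) (II) `p₂ ≠ 1`, `y₂ = 1`: `g = b p₂`, reduced, so `b, p₂ ∈ W_I` (`G_PB`). `p₂ ∈ W_I ∩ W_sr = W_(I ∩ {s,r})`. If `s, r ∈ I` then `y = p₁ ∈ W_I` and `XL I y`, so `y = 1`, contradiction. So `I ∩ {s,r}` has at most one element, and `p₂ ≠ 1`: `I ∩ {s,r} = {e}`, `p₂ = s_e`, `{s,r} = {e,f}`, `f ∉ I`, `I = {a, e}`. `g = b e`, `ℓ(b) = ℓ(g) - 1 ≥ 1`, `e ∉ R(b)`, so `a ∈ R(b)`. `p = e p₁` reduced, `p ≠ w0` (`r ∉ R(g y)`), so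
`L(p) ∩ {s,r} = {e}`, `t' = e`, `r' = f`, `f ∈ R(x b)`; `b ≠ 1`. Second alternative of `STEP`: `p r = f p`: `e (y r) = e p₁ r = p r = f p`, so `f ∈ L(e (y r))` (`ℓ(f p) = ℓ(p) + 1`, as `ℓ(p r) = ℓ(p) + 1`). If `ℓ(b) = 1`: `b = s_a`: TA with `(a, e, f)`. If `ℓ(b) ≥ 2`: `b` is full, `m_ae ≠ 2` (`ℓ(g) ≥ 3`); `NEWD` for `(x, b, f)` (`f ∉ R(b)` since `b ∈ W_I`): `b = a' b'`, `b' ∈ R(b)` so `b' = a`, `a' = e`:
`b = e a`, `m_af = 2`, `f ∈ R(x e)`: `g = e a e`: TC with `(a, b, c) := (e, a, f)`. Third alternative: `ℓ(p) + 2 = m := M s r`, `b = s_q`, so `q = a`, `m_fa = 2`, `f ∈ R(x)`, `e ∈ R(x f a)`, `g = a e`: TB with `(a, b, c) := (a, f, e)`: `e (y r) = p r` has length `m - 1` (`r ∉ R(p)`) and `e ∈ L`, so `f ∉ L(e (y r))` (`KD1`), and `f e (y r)` has length `m`, it is `w0`, `e ∈ L(w0)`.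
(III) `p₂ ≠ 1`, `y₂ ≠ 1`: let `θ' ∈ {s,r}` be a right descent of `p₂`, `θ''` the other element of `{s,r}`. `θ' ∈ R(g y₂)`, `θ', θ'' ∉ R(y₂)`. Claim `θ'' ∈ R(x g y₂ θ')`: if `ℓ(p₂) ≥ 2` then `p₂ θ' ≠ 1`, `θ'' ∈ R(p₂ θ')`, `θ'' ∈ R(g y₂ θ') ⊂ R(x g y₂ θ')` (`x (g y₂ θ')` is reduced). If `p₂ = s_θ'`: `b = g y₂ θ'`, `p = θ' p₁`, `t' = θ'`, `r' = θ''`, `θ'' ∈ R(x b)`. Now `HARD` (`y := y₂`, `p := θ'`, `q := θ''`):
`y₂ = s_θ`, .., `g = θ'' θ'`, `θ'' ∉ R(g y₂ θ')`, so `p₂ = s_θ'`; `ℓ(b) = 2`, so the second alternative of `STEP` holds: `p r = r' p = θ'' p`. TBm with `(a, b, c) := (θ, θ', θ'')`: `y r = θ p₁ r`, reduced, so `θ ∈ L(y r)`; `θ' θ (y r) = θ' p₁ r = p r = θ'' p`, so `θ'' ∈ L(θ' θ (y r))`. -/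
def GEO1 : Prop := ∀ (S W : Type) [Group W] (M : CoxeterMatrix S) (cs : CoxeterSystem M W), Lg M →
  ∀ (i j : S) (x g y : W) (r : S), i ≠ j → XR cs {i, j} x → Full cs i j g →
    cs.length (x * g * y) = cs.length x + cs.length g + cs.length y → XL cs {i, j} (y * cs.simple r) →
    cs.length (y * cs.simple r) = cs.length y + 1 → cs.IsRightDescent (x * g * y) r → T4 cs x g (y * cs.simple r)

/-- PACKET LF-GEO (1 h). From `KD1`, `KD2`, `TR`, `GEO1`.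

PROOF. Induction on `ℓ(y)`. `y = 1`: `ℓ(x g) = ℓ(x) + ℓ(g)` (`G_PA`), contradiction. `y = y₀ r` reduced: `XL y₀` (prefix). If `x g y₀` is not reduced: induction and `TR` (`Y = y₀`, `y₁ = s_r`). If it is reduced: `ℓ(x g y₀ r) ≠ ℓ(x g y₀) + 1`, so `r ∈ R(x g y₀)`: `GEO1`. Last clause: the `g` of the four types have length `≤ 3`. -/
def GEO : Prop := ∀ (S W : Type) [Group W] (M : CoxeterMatrix S) (cs : CoxeterSystem M W), Lg M →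
  ∀ (i j : S) (x g y : W), i ≠ j → XR cs {i, j} x → Full cs i j g → XL cs {i, j} y →
    (cs.length (x * g * y) ≠ cs.length x + cs.length g + cs.length y → T4 cs x g y) ∧
    (4 ≤ cs.length g → cs.length (x * g * y) = cs.length x + cs.length g + cs.length y)

/-- PACKET LF-GEO3 (2 h). From `KD1`, `KD2`, `K1`, `GEO`. Commuting parabolic subgroups: long tight triples are reduced.

PROOF. (a) For commuting `I`, `u ∈ W_I`, `v ∉ I` commuting with all `i ∈ I`, `XR I x`: `v ∈ R(x u)` implies `v ∈ R(x)` (induction on `ℓ(u)`: `u = u' e` reduced, `e ∈ I`, `e, v ∈ R(x u)`: `v ∈ R(x u e) = R(x u')` by `KD2`). (b) `k` has a reduced word with letters in `I` (`G_PA`), `ℓ(k) ≥ 3`: `k = k' a b`, `ℓ(k) = ℓ(k') + 2`, `a, b ∈ I`, `a ≠ b`,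
`k' ∈ W_I`, `k' ≠ 1`; `m_ab = 2`, `a b = b a`, so `a, b ∉ R(k')`. `x' := x k'`: `ℓ(x') = ℓ(x) + ℓ(k')`, `XR {a,b} x'` (`KD2` (3)), `XL {a,b} y`. If `x' (a b) y` is reduced then so is `x k y`. Suppose not: `GEO` for `(a, b; x', a b, y)` (`a b` is full, `KD1`): a type. In all types the two letters of `g = a b` are `a` and `b` in some order (`KD1`, `G_PB`); we write `a, b` for them.
TA: `c ∈ R(x' a)`, `c ∈ L(b y)`, `c ≠ a, b`. If `m_ac = 2` then `m_bc = 2` (`tr`), `c ∉ I` (if `c ∈ I`: `c ∈ L(b y)` implies `c ∈ L(s_b)` by `KD2` (4), so `c = b`), `c` commutes with all of `I` (`tr`), `c, b ∈ L(b y)` so `c ∈ L(y)` (`KD2`): contradiction to tightness. If `m_ac ≠ 2`: let `e ∈ R(k')`, `e ∈ I`, `e ≠ a, b`; `e ∈ R(k' a)` (`KD2` (5)), so `e, a, c ∈ R(x' a)` (`KD2` (3)), `e ≠ c` (`m_ae = 2`),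
`T3` of `K1`: `m_ac = 2`, contradiction. TB: `(a, b; c)` with `{a, c}` the pair, `m_ab = 2`, `b ∈ R(x')`, `c ∈ R(x' b a)`. `m_ac = 2`, `b ≠ c`: `m_bc = 2` (`tr`). If `b ∉ I`: `b` commutes with all of `I` (`tr`), `b ∈ R(x)` by (a): contradiction to tightness. If `b ∈ I`: `c ∈ R(k' b a)` (`KD2` (3)); `c` commutes with `a` and `b`, `c ∉ R(k')`, so `c ∉ R(k' b)`, `c ∉ R(k' b a)` (`KD2` (5) backwards: `c ∈ R(z)`, `i ∉ R(z)`.. or by counting letters; `c ≠ a, b`): contradiction.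
TBm: `{b, c}` is the pair, `m_ab = 2`, so `m_ac = 2` (`tr`), `a ∈ L(y)`, so `a ∉ I` (`XL I y`), `a` commutes with all of `I`: contradiction to tightness. TC: `ℓ(s_p s_q s_p) = 3` (`m_pq ≠ 2`), `ℓ(a b) = 2`. -/
def GEO3 : Prop := ∀ (S W : Type) [Group W] (M : CoxeterMatrix S) (cs : CoxeterSystem M W), Lg M →
  ∀ (I : Set S) (x k y : W), Cm M I → XR cs I x → k ∈ par cs I → XL cs I y → Tight cs I x y → 3 ≤ cs.length k →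
    cs.length (x * k * y) = cs.length x + cs.length k + cs.length y

end Pool.Agent.Helper74.LF
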