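import Pool.Agent.Helper74.LF.GoalsG

/-!
# Project LF (MP_cc6379_al): goals, part R. Reduced products (no Hecke algebras here). Notation as in `GoalsG.lean`.
-/

set_option autoImplicit false

open Pool.Agent.Helper15.RA Pool.Agent.Helper45.AM

noncomputable section

namespace Pool.Agent.Helper74.LF

/-- PACKET LF-RA0 (2.5 h). From `KD1`, `KD2`, `K1`, `GEO`. Write `h = w_ac c`, `k = c w_bc`, `m = m_ac`, `m' = m_bc` (both `≥ 6`).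

PROOF. Second clause: `XR {b,c} (x h)`: `c ∉ R(h)` (`ℓ(h c) = m > ℓ(h)`), so `c ∉ R(x h)` (`KD2` (3)); `b ∉ R(x h)` by SZ (`K1`; `ℓ(h) = m - 1 ≥ 3`). `w_bc` is full of length `m' ≥ 4`: `GEO` (second part) for `(x h, w_bc, y)`.
First clause: `X := x h a`, `Y := b k y`. `h a`: `a ∈ R(h)` (`KD1`: `h ≠ 1, w0`, `c ∉ R(h)`), `ℓ(h a) = m - 2`, `R(h a) ∩ {a,c} = {c}`; `XR {a,b} X`: `a` by `KD2` (3), `b` by SZ (`ℓ(h a) ≥ 5`). In the same way `b ∈ L(k)`, `ℓ(b k) = m' - 2`, `XL {a,b} Y` (`b` by `KD2` (4), `a` by the left SZ). `x h k y = X (a b) Y`; `s_a s_b` is full. Suppose it is not reduced;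
`GEO`: one of the types. If `s_a s_b = s_p s_q` with `p ≠ q` then `(p,q) = (a,b)`, or `(p,q) = (b,a)` and `m_ab = 2` (reduced words: `p, q ∈ {a,b}` by `G_PB`; `KD1`: `ab ≠ ba` if `m_ab ≠ 2`). TA, `(p,q) = (a,b)`: `r ∈ R(X a) = R(x h)`, `r ≠ a, b`: SZ: `r ∈ {a,c}`, so `r = c`, but `c ∉ R(x h)`. TA, `(p,q) = (b,a)`, `m_ab = 2`: `r ∈ R(X b)`, `r ≠ a, b`;
`b ∈ R(X b)`, `c ∈ R(X) = R(X b b)`. If `r = c`: `b, c ∈ R(X b)`, `m_bc ≥ 6`: `KD2` for `X b`, `i = b`, `j = c`: `b ∈ R(X b b c) = R(X c)`; `X c = x (h a c)`, `ℓ(h a c) = m - 3 ≥ 3`: contradiction to SZ. If `r ≠ c`: CL1 for `(X b; b, c, r)`: `m_br = 2`; `r, b ∈ R(X b)`, so `r ∈ R(X)` (`KD2`), `r ≠ a, c`, `X = x (h a)`: contradiction to SZ (`ℓ(h a) ≥ 4`). TB: `s_a s_b = s_p s_r'` (`r'` = its `c`), `m_pq = 2`, `q ∈ R(X)`, `q ≠ r'`. If `(p, r') = (a, b)`: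
`q ≠ a`, `q ≠ c` (`m_ac ≠ 2`), SZ for `X = x (h a)`: contradiction. If `(p, r') = (b, a)`, `m_ab = 2`: `q ≠ a`, `q ≠ c` (`m_bc ≠ 2`), SZ for `X`: contradiction. TBm: `s_a s_b = s_r' s_q`, `m_pq = 2`, `p ≠ r'`, `p ∈ L(Y)`. If `(r', q) = (a, b)`: `p ≠ b`, `p ≠ c` (`m_bc ≠ 2`): left SZ for `Y = (b k) y`. If `(r', q) = (b, a)`, `m_ab = 2`: `p ≠ b`, `p ≠ c` (`m_ac ≠ 2`), left SZ for `Y`: contradiction.
TC: `ℓ(s_a s_b) = 2` but `ℓ(s_p s_q s_p) = 3` (`m_pq ≠ 2` in `TC`). So `ℓ = ℓ(X) + 2 + ℓ(Y)`. -/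
def RA0 : Prop := ∀ (S W : Type) [Group W] (M : CoxeterMatrix S) (cs : CoxeterSystem M W), Lg M →
  ∀ (a b c : S) (x y : W), a ≠ b → a ≠ c → b ≠ c → M a c ≠ 2 → M b c ≠ 2 → XR cs {a, c} x → XL cs {b, c} y →
    cs.length (x * (w0 cs a c * cs.simple c) * (cs.simple c * w0 cs b c) * y) + 2 =
      cs.length x + M a c + M b c + cs.length y ∧
    cs.length (x * (w0 cs a c * cs.simple c) * w0 cs b c * y) + 1 = cs.length x + M a c + M b c + cs.length y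

/-- PACKET LF-RA1 (2.5 h). From `KD1`, `KD2`, `K1`, `GEO`. `m_bc = 2`, `m_ab ≠ 2`, so `m_ac ≠ 2` (`tr`), both `≥ 6`. Write `h = w_ac c`, `X = x h a`, `x₀ = x w_ac a` (so `x₀ a = x w_ac`), `m = m_ac`.

PROOF. (1) `XR {a,b} X`: as in `RA0` (`ℓ(h a) = m - 2`, `R(h a) ∩ {a,c} = {c}`; SZ for `b`). (2) Let `a ∉ L(b y)`. `y = q y₆`, `q ∈ W_ab`, `XL {a,b} y₆`, lengths add. `b ∉ L(y)`, so `b ∉ L(q)` and `ℓ(b q) = ℓ(q) + 1`; `b q ≠ w_ab` (otherwise `a ∈ L(b q)`, `a ∈ L(b y)`), `a ∉ L(b q)` (`KD2` (4): `b y = (b q) y₆`), so `g := a b q` has length `ℓ(q) + 2`, is full in `W_ab`, and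
`x h (b y) = X g y₆`, `x w_ac (b y) = x₀ g y₆`. Both are reduced: if `ℓ(q) ≥ 2` by `GEO` (second part). If `ℓ(q) ≤ 1`: `q = 1` or `q = s_a` (`b ∉ L(q)`). Suppose not reduced: `GEO` gives a type.
`q = 1`, `g = a b`, `y₆ = y`. (`s_a s_b = s_p s_r` with `p ≠ r` implies `(p,r) = (a,b)`, as `m_ab ≠ 2`.) For `X`: TA: `r ∈ R(X a) = R(x h)`, `r ≠ a, b`; SZ: `r = c`; but `c ∉ R(x h)`. TB: `m_aq' = 2`, `q' ∈ R(X)`, `q' ≠ a, c`: SZ (`ℓ(h a) ≥ 3`). TBm: `m_pb = 2`, `p ∈ L(y)`, `p ∉ R(X a)`, `a ∈ R(X a p)`: `p ≠ c` (`XL {b,c} y`), `m_ap ≠ 2` (`tr` for `p`: otherwise `m_ab = 2`), `a, p ∈ R(X a p)`, so (`KD2`, `i = p`, `j = a`) `p ∈ R(X a p p a) = R(X)`: contradiction to SZ (`X = x (h a)`, `p ≠ a, c`). TC: length 3. For `x₀`: TA: `r ∈ R(x₀ a) = R(x w_ac)`, `r ≠ a, b`: `T3` (`a, c ∈ R(x w_ac)`, `m_ac ≠ 2`): `r = c`;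
`c ∈ L(b y)`, `b ∈ L(b y)`, so `c ∈ L(y)` (`KD2` (2)): no. TB: `m_aq' = 2`, `q' ∈ R(x₀)`, `x₀ = x (w_ac a)`, `ℓ(w_ac a) = m - 1 ≥ 3`, SZ: `q' = c`, but `m_ac ≠ 2`. TBm: as before, `p ∈ R(x₀)`, `x₀ = x (w_ac a)`, SZ. TC: length.
`q = s_a`, `g = a b a`, `y = a y₆`: TA, TB, TBm: length 2. TC: `s_a s_b s_a = s_p s_q s_p`: `(p,q) = (a,b)` (`KD1`), `m_br = 2`, `r ≠ a`. For `X`: `r ∈ R(X a) = R(x h)`: `r = c` by SZ, but `c ∉ R(x h)`. For `x₀`: `r ∈ R(x₀ a) = R(x w_ac)`: `r = c` by SZ, `c ∈ L(a y₆) = L(y)`: no. Lengths: `ℓ(X) = ℓ(x) + m - 2`, `ℓ(x₀) = ℓ(x) + m - 1`, `ℓ(y) = ℓ(q) + ℓ(y₆)`. -/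
def RA1 : Prop := ∀ (S W : Type) [Group W] (M : CoxeterMatrix S) (cs : CoxeterSystem M W), Lg M →
  ∀ (a b c : S) (x y : W), a ≠ b → a ≠ c → M a b ≠ 2 → M b c = 2 → XR cs {a, c} x →
    XR cs {a, b} (x * w0 cs a c * cs.simple a) → XL cs {b, c} y →
    XR cs {a, b} (x * w0 cs a c * cs.simple c * cs.simple a) ∧
    (¬ cs.IsLeftDescent (cs.simple b * y) a →
      cs.length (x * (w0 cs a c * cs.simple c) * (cs.simple b * y)) = cs.length x + M a c + cs.length y ∧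
      cs.length (x * w0 cs a c * (cs.simple b * y)) = cs.length x + M a c + 1 + cs.length y)

/-- PACKET LF-RC (2 h). From `KD1`, `KD2`, `K1`, `GEO`. `m_bc = 2`, `m_ab ≠ 2`, so `m_ab, m_ac ≥ 6`. Write `h = w_ac c`, `k = c w_ac`, `m = m_ac`, `X = x h a`, `Y = a k y`, `x₀ = x w_ac a`, `y₀ = a w_ac y`.

PROOF. `XR {a,b} X`: as in `RA0`; `XL {a,b} Y`: mirror image (`a ∈ L(k)`, `ℓ(a k) = m - 2`, `L(a k) ∩ {a,c} = {c}`, left SZ for `b`). `s_a s_b s_a` is full in `W_ab` (length 3). `x h b k y = X (a b a) Y`. Not reduced: `GEO`: TA, TB, TBm have `ℓ(g) = 2`; TC: `s_a s_b s_a = s_p s_q s_p` gives `(p,q) = (a,b)` (`KD1`, letters in `{a,b}` by `G_PB`), `m_br = 2`, `r ∈ R(X a) = R(x h)`: `r = c` by SZ, but `c ∉ R(h)`. `x w_ac b k y = x₀ (a b a) Y`: TC: `r = c` (SZ for `x w_ac`), `c ∈ L(a Y) = L(k y)`, but `c ∉ L(k)` (`ℓ(c k) = m`) and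 `XL {a,c} y`: no. Lengths: `ℓ(X) = ℓ(x) + m - 2`, `ℓ(Y) = m - 2 + ℓ(y)`, `ℓ(x₀) = ℓ(x) + m - 1`. -/
def RC : Prop := ∀ (S W : Type) [Group W] (M : CoxeterMatrix S) (cs : CoxeterSystem M W), Lg M →
  ∀ (a b c : S) (x y : W), a ≠ b → a ≠ c → M a b ≠ 2 → M b c = 2 → XR cs {a, c} x → XL cs {a, c} y →
    XR cs {a, b} (x * w0 cs a c * cs.simple a) → XL cs {a, b} (cs.simple a * w0 cs a c * y) →
    cs.length (x * (w0 cs a c * cs.simple c) * cs.simple b * (cs.simple c * w0 cs a c) * y) + 1 =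
      cs.length x + 2 * M a c + cs.length y ∧
    cs.length (x * w0 cs a c * cs.simple b * (cs.simple c * w0 cs a c) * y) = cs.length x + 2 * M a c + cs.length y

end Pool.Agent.Helper74.LF
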